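import Pool.Agent.Helper82.GC.Fin2

set_option autoImplicit false

namespace Pool.Agent.Results.MP_8ad8d2_gt.DilateTwo

open MeasureTheory

/-- The standard Gaussian measure of a subset `A` of a finite dimensional Euclidean space `E`:
the integral over `A` of the density `(2π)^(-dim E / 2) e^(-|x|²/2)`. -/
noncomputable def gaussian {E : Type*} [NormedAddCommGroup E] [InnerProductSpace ℝ E]
    [FiniteDimensional ℝ E] [MeasurableSpace E] [BorelSpace E] (A : Set E) : ℝ :=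
  ∫ x in A, (2 * Real.pi) ^ (-(Module.finrank ℝ E : ℝ) / 2) * Real.exp (-‖x‖ ^ 2 / 2)

/-- The dilate `t Q_k = [-t/2, t/2]^k` of the centred cube of unit volume. -/
def dilate (k : ℕ) (t : ℝ) : Set (EuclideanSpace ℝ (Fin k)) := {x | ∀ i, |x i| ≤ t / 2}

/-- The Gaussian measure `γ_{a^⊥}(t Q_n ∩ a^⊥)`, computed inside the hyperplane `a^⊥`. -/
noncomputable def sectionMeasure (n : ℕ) (t : ℝ) (a : EuclideanSpace ℝ (Fin n)) : ℝ :=
  gaussian {x : ((ℝ ∙ a)ᗮ : Submodule ℝ (EuclideanSpace ℝ (Fin n))) |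
    (x : EuclideanSpace ℝ (Fin n)) ∈ dilate n t}

/-- The set of the values of `a ↦ γ_{a^⊥}(t Q_n ∩ a^⊥)` on the unit sphere. -/
def values (n : ℕ) (t : ℝ) : Set ℝ :=
  {g : ℝ | ∃ a : EuclideanSpace ℝ (Fin n), ‖a‖ = 1 ∧ sectionMeasure n t a = g}

/-- `M_n(t)`: the supremum of `γ_{a^⊥}(t Q_n ∩ a^⊥)` over the unit vectors `a`. -/
noncomputable def M (n : ℕ) (t : ℝ) : ℝ := sSup (values n t)

/-- The answer to Q1 for the dilate `t = 2` and every `n ≥ 2`.
(1) `M_n(2)` is the greatest value of a section.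
(2) For `2 ≤ n ≤ 5`, `M_n(2) = γ_1([-√2, √2]) γ_{n-2}([-1, 1]^{n-2})`, and the directions at
which it is attained are exactly the unit vectors with two coordinates of absolute value `1/√2`.
(3) For `n ≥ 6`, `M_n(2)` is given by an explicit integral, and the directions at which it is
attained are exactly the main diagonals, `|a_i| = 1/√n` for all `i`. -/
theorem result :
    (∀ n : ℕ, 2 ≤ n → IsGreatest (values n 2) (M n 2)) ∧
    (∀ n : ℕ, 2 ≤ n → n ≤ 5 →
      M n 2 = gaussian (dilate 1 (2 * Real.sqrt 2)) * gaussian (dilate (n - 2) 2) ∧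
      ∀ a : EuclideanSpace ℝ (Fin n), ‖a‖ = 1 →
        (sectionMeasure n 2 a = M n 2 ↔
          ∃ i j, i ≠ j ∧ |a i| = 1 / Real.sqrt 2 ∧ |a j| = 1 / Real.sqrt 2)) ∧
    (∀ n : ℕ, 6 ≤ n →
      M n 2 = (2 * Real.pi) ^ (-((n : ℝ) + 1) / 2) *
        ∫ s : ℝ, (∫ x in (-1 : ℝ)..1, Real.cos (s * x / Real.sqrt n) * Real.exp (-x ^ 2 / 2)) ^ n ∧
      ∀ a : EuclideanSpace ℝ (Fin n), ‖a‖ = 1 →
        (sectionMeasure n 2 a = M n 2 ↔ ∀ i, |a i| = 1 / Real.sqrt n)) := by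
  have hd : ∀ k : ℕ, dilate k 2 = {x | ∀ i, |x i| ≤ (1 : ℝ)} := by
    intro k
    ext x
    have e : (2 : ℝ) / 2 = 1 := by norm_num
    constructor
    · intro h i
      have := h i
      rwa [e] at this
    · intro h i
      rw [e]
      exact h i
  have hd2 : dilate 1 (2 * Real.sqrt 2) = {x | ∀ i, |x i| ≤ Real.sqrt 2} := by
    ext x
    have e : 2 * Real.sqrt 2 / 2 = Real.sqrt 2 := by ring
    constructor
    · intro h i
      have := h i
      rwa [e] at this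
    · intro h i
      rw [e]
      exact h i
  have hsec : ∀ (n : ℕ) (a : EuclideanSpace ℝ (Fin n)),
      sectionMeasure n 2 a = Helper82.GC.sec n 1 a := by
    intro n a
    unfold sectionMeasure
    rw [hd]
    rfl
  have h6 : ∀ n : ℕ, 6 ≤ n → IsGreatest (values n 2) (Helper82.GC.sec n 1 (Helper82.GC.diagonal n)) := by
    intro n hn
    refine ⟨⟨_, Helper82.GC.diagonal_norm (by omega), hsec _ _⟩, ?_⟩
    rintro g ⟨a, ha, rfl⟩
    rw [hsec]
    exact (Helper82.GC.main_six hn a ha).1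
  have h5 : ∀ n : ℕ, 2 ≤ n → n ≤ 5 → IsGreatest (values n 2)
      ((2 * Real.pi) ^ (-((n : ℝ) + 1) / 2) * Helper82.GC.Zr 1 ^ n *
        (Real.sqrt 2 * Helper82.GC.Ip 2)) := by
    intro n hn hn5
    obtain ⟨k, rfl⟩ : ∃ k, n = k + 2 := ⟨n - 2, by omega⟩
    refine ⟨⟨Helper82.GC.twoDir k, Helper82.GC.twoDir_norm k, ?_⟩, ?_⟩
    · rw [hsec]
      exact (Helper82.GC.main_five hn hn5 _ (Helper82.GC.twoDir_norm k)).2.2
        (Helper82.GC.twoDir_spec k)
    · rintro g ⟨a, ha, rfl⟩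
      rw [hsec]
      exact (Helper82.GC.main_five hn hn5 a ha).1
  have hM6 : ∀ n : ℕ, 6 ≤ n → M n 2 = Helper82.GC.sec n 1 (Helper82.GC.diagonal n) :=
    fun n hn => (h6 n hn).csSup_eq
  have hM5 : ∀ n : ℕ, 2 ≤ n → n ≤ 5 → M n 2 = (2 * Real.pi) ^ (-((n : ℝ) + 1) / 2) *
      Helper82.GC.Zr 1 ^ n * (Real.sqrt 2 * Helper82.GC.Ip 2) :=
    fun n hn hn5 => (h5 n hn hn5).csSup_eq
  refine ⟨?_, fun n hn hn5 => ⟨?_, ?_⟩, fun n hn => ⟨?_, ?_⟩⟩
  · intro n hn
    by_cases h : n ≤ 5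
    · rw [hM5 n hn h]
      exact h5 n hn h
    · rw [hM6 n (by omega)]
      exact h6 n (by omega)
  · rw [hM5 n hn hn5]
    obtain ⟨k, rfl⟩ : ∃ k, n = k + 2 := ⟨n - 2, by omega⟩
    rw [Helper82.GC.pair_value, ← Helper82.GC.gam_cube 1 (Real.sqrt_pos.2 (by norm_num)),
      ← Helper82.GC.gam_cube k one_pos]
    rw [hd, hd2]
    rfl
  · intro a ha
    rw [hM5 n hn hn5, hsec]
    exact (Helper82.GC.main_five hn hn5 a ha).2
  · rw [hM6 n hn]
    exact Helper82.GC.diag_value (by omega)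
  · intro a ha
    rw [hM6 n hn, hsec]
    exact (Helper82.GC.main_six hn a ha).2

end Pool.Agent.Results.MP_8ad8d2_gt.DilateTwo
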